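import Pool.Agent.MP_ce43bb_an.H42.Proj

/-! Conjugate variables of semicircular perturbations on the Fock space. -/

set_option linter.unusedSectionVars false

open scoped InnerProductSpace ENNReal Topology
open Filter

noncomputable section

namespace Pool.Agent.MP_ce43bb_an.H42
open Pool.Agent.MP_ce43bb_an.H78

variable {L Γ : Type} [DecidableEq L] [AddCommGroup Γ] [DecidableEq Γ]
  {H : Type} [NormedAddCommGroup H] [InnerProductSpace ℂ H] [CompleteSpace H]
  (F : Fock L Γ H) {n : ℕ}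

theorem inner_single (a : L × Γ) : ⟪F.e [a] 0, F.e [a] 0⟫_ℂ = 1 := by
  rw [F.inner_e]
  simp [kw, F.k1_self]

theorem norm_single (a : L × Γ) : ‖F.e [a] 0‖ = 1 := by
  have h2 : ‖F.e [a] 0‖ ^ 2 = 1 := by
    rw [← inner_self_eq_norm_sq (𝕜 := ℂ), inner_single]; simp
  exact (pow_eq_one_iff_of_nonneg (norm_nonneg _) two_ne_zero).mp h2

theorem fval_le (σ : Fin n → L) (x : Fin n → H →L[ℂ] H) (t : ℝ) :
    fval F.Ω x (fun i => F.S (σ i, 0)) t ≤ n := by
  have : ∀ j : Fin n, ‖proj F.Ω (pert x (fun i => F.S (σ i, 0)) t) (F.S (σ j, 0) F.Ω)‖ ^ 2 ≤ 1 := by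
    intro j
    have h1 := norm_proj_apply_le F.Ω (pert x (fun i => F.S (σ i, 0)) t) (F.S (σ j, 0) F.Ω)
    rw [F.S_Ω, norm_single] at h1
    rw [F.S_Ω]
    exact pow_le_one₀ (norm_nonneg _) h1
  calc fval F.Ω x (fun i => F.S (σ i, 0)) t ≤ ∑ _j : Fin n, (1 : ℝ) :=
        Finset.sum_le_sum fun j _ => this j
    _ = n := by simp

theorem fval_lower (σ : Fin n → L) (x : Fin n → H →L[ℂ] H)
    (key0 : ∀ i, star (F.l (σ i, 0)) (x i F.Ω) = 0) {C : ℝ} (hC : ∀ i, ‖x i‖ ≤ C)
    {t : ℝ} (ht : 0 < t) :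
    n * t / (t + C ^ 2) ≤ fval F.Ω x (fun i => F.S (σ i, 0)) t := by
  have hD : 0 < t + C ^ 2 := by positivity
  have hs : Real.sqrt t ^ 2 = t := Real.sq_sqrt ht.le
  have : ∀ j : Fin n, t / (t + C ^ 2) ≤
      ‖proj F.Ω (pert x (fun i => F.S (σ i, 0)) t) (F.S (σ j, 0) F.Ω)‖ ^ 2 := by
    intro j
    set u : H := F.e [(σ j, 0)] 0 with hu
    have hu1 : ‖u‖ = 1 := norm_single F _
    have h0 : ⟪u, x j F.Ω⟫_ℂ = 0 := by
      rw [hu, ← F.l_Ω, ← Fock.inner_star_right, key0, inner_zero_right]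
    have hx : ‖x j F.Ω‖ ≤ C := by
      have := (x j).le_opNorm F.Ω
      rw [F.norm_Ω, mul_one] at this
      exact this.trans (hC j)
    have hx2 : ‖x j F.Ω‖ ^ 2 ≤ C ^ 2 := pow_le_pow_left₀ (norm_nonneg _) hx 2
    have hk : x j F.Ω + (Real.sqrt t : ℂ) • u ∈ L2 F.Ω (pert x (fun i => F.S (σ i, 0)) t) := by
      have := word_mem F.Ω (pert x (fun i => F.S (σ i, 0)) t) [j]
      rw [word_cons, word_nil, mul_one] at this
      simpa [pert, F.S_Ω] using this
    have hn : ‖x j F.Ω + (Real.sqrt t : ℂ) • u‖ ^ 2 = ‖x j F.Ω‖ ^ 2 + t := by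
      have h1 : ⟪x j F.Ω, (Real.sqrt t : ℂ) • u⟫_ℂ = 0 := by
        rw [inner_smul_right, ← inner_conj_symm, h0]; simp
      rw [@norm_add_sq ℂ, h1, norm_smul, hu1, Complex.norm_real,
        Real.norm_of_nonneg (Real.sqrt_nonneg t), mul_one, hs]
      simp
    have hi : ⟪u, x j F.Ω + (Real.sqrt t : ℂ) • u⟫_ℂ = (Real.sqrt t : ℂ) := by
      rw [inner_add_right, h0, inner_smul_right, inner_single]; simp
    have hq := quad_le F.Ω _ u (Submodule.smul_mem _ ((Real.sqrt t / (t + C ^ 2) : ℝ) : ℂ) hk)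
    rw [inner_smul_right, hi, norm_smul, mul_pow, hn, Complex.norm_real, Real.norm_eq_abs, sq_abs,
      ← Complex.ofReal_mul, Complex.ofReal_re] at hq
    rw [F.S_Ω]
    refine le_trans ?_ hq
    have e1 : Real.sqrt t / (t + C ^ 2) * Real.sqrt t = t / (t + C ^ 2) := by
      rw [div_mul_eq_mul_div, ← sq, hs]
    have e2 : (Real.sqrt t / (t + C ^ 2)) ^ 2 * (‖x j F.Ω‖ ^ 2 + t) ≤ t / (t + C ^ 2) := by
      calc _ ≤ (Real.sqrt t / (t + C ^ 2)) ^ 2 * (t + C ^ 2) :=
            mul_le_mul_of_nonneg_left (by linarith) (sq_nonneg _)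
        _ = _ := by rw [div_pow, hs]; field_simp
    rw [e1]
    linarith
  calc n * t / (t + C ^ 2) = ∑ _j : Fin n, t / (t + C ^ 2) := by simp [mul_div_assoc]
    _ ≤ _ := Finset.sum_le_sum fun j _ => this j

theorem mlt_noise {σ : L} (hσ : F.IsNoise σ) (v : H) :
    F.mlt (σ, 0) (σ, 0) v = ⟪F.Ω, v⟫_ℂ • F.Ω :=
  F.ext_vec fun w g => by
    rw [F.inner_mlt, inner_smul_right, Fock.Ω, F.inner_e]
    by_cases hg : g = 0
    · subst hg
      cases w <;> simp [k1, kw, F.phi_zero]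
    · cases w <;> simp [k1, hσ g, hg]

theorem isSelfAdjoint_pert {x s : Fin n → H →L[ℂ] H} (hx : ∀ i, IsSelfAdjoint (x i))
    (hs : ∀ i, IsSelfAdjoint (s i)) (t : ℝ) (i : Fin n) : IsSelfAdjoint (pert x s t i) := by
  simp only [IsSelfAdjoint, pert, star_add, star_smul, (hx i).star_eq, (hs i).star_eq]
  simp

theorem isConj_pert (σ : Fin n → L) (hσ : Function.Injective σ) (hn : ∀ i, F.IsNoise (σ i))
    (x : Fin n → H →L[ℂ] H) (hx : ∀ i, x i ∈ F.NL (Set.range σ)) (hxs : ∀ i, IsSelfAdjoint (x i))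
    {t : ℝ} (ht : 0 < t) :
    IsConj F.Ω (pert x (fun i => F.S (σ i, 0)) t) fun j =>
      proj F.Ω (pert x (fun i => F.S (σ i, 0)) t)
        (((Real.sqrt t)⁻¹ : ℂ) • F.S (σ j, 0) F.Ω) := by
  set y := pert x (fun i => F.S (σ i, 0)) t with hy
  refine isConj_proj (isSelfAdjoint_pert hxs (fun i => F.star_S _) t) fun j w => ?_
  have hc : (Real.sqrt t : ℂ) ≠ 0 := by exact_mod_cast (Real.sqrt_pos.mpr ht).ne'
  have hcomm : ∀ i v, y i (F.r (σ j, 0) v) = F.r (σ j, 0) (y i v) +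
      (Real.sqrt t : ℂ) • (if i = j then ⟪F.Ω, v⟫_ℂ • F.Ω else 0) := by
    intro i v
    have h1 := congrArg (fun A : H →L[ℂ] H => A v)
      (F.commute_r_of_mem_NL (hx i) (c := (σ j, 0)) ⟨j, rfl⟩).eq
    have h2 := congrArg (fun A : H →L[ℂ] H => A v) (F.S_mul_r (σ j, 0) (σ i, 0))
    simp only [mul_apply_eq_comp, add_apply] at h1 h2
    have h3 : F.mlt (σ j, 0) (σ i, 0) v = if i = j then ⟪F.Ω, v⟫_ℂ • F.Ω else 0 := by
      split_ifs with hij
      · subst hij; exact mlt_noise F (hn i) v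
      · rw [F.mlt_eq_zero fun e => hij (hσ e).symm]; rfl
    simp only [hy, pert, add_apply, smul_apply, h1, h2, h3,
      map_add, map_smul, smul_add]
    abel
  have hw : ∀ w : List (Fin n), word y w (F.r (σ j, 0) F.Ω) = F.r (σ j, 0) (word y w F.Ω) +
      (Real.sqrt t : ℂ) • ∑ p : Fin w.length, if w.get p = j then
        tau F.Ω (word y (w.drop (p + 1))) • word y (w.take p) F.Ω else 0 := by
    intro w
    induction w with
    | nil => simp [word_nil]
    | cons i w ih =>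
      have hs : y i (∑ p : Fin w.length, if w.get p = j then
          tau F.Ω (word y (w.drop (p + 1))) • word y (w.take p) F.Ω else 0) =
          ∑ p : Fin w.length, if w.get p = j then
            tau F.Ω (word y (w.drop (p + 1))) • word y (i :: w.take p) F.Ω else 0 := by
        rw [map_sum]
        refine Finset.sum_congr rfl fun p _ => ?_
        split_ifs
        · rw [map_smul, word_cons]; rfl
        · exact map_zero _
      rw [word_cons, mul_apply_eq_comp, ih, map_add, map_smul, hcomm, hs, mul_apply_eq_comp,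
        add_assoc, ← smul_add]
      congr 2
      exact (Fin.sum_univ_succ (n := w.length) fun p : Fin (i :: w).length =>
        if (i :: w).get p = j then
          tau F.Ω (word y ((i :: w).drop (p + 1))) • word y ((i :: w).take p) F.Ω else 0).symm
  have h0 : ∀ v, ⟪F.Ω, F.r (σ j, 0) v⟫_ℂ = 0 := fun v => by
    rw [← Fock.inner_star_left, F.star_r_Ω, inner_zero_left]
  rw [map_smul, inner_smul_right, F.S_Ω, ← F.r_Ω, hw, inner_add_right, h0, zero_add,
    inner_smul_right, ← mul_assoc, inv_mul_cancel₀ hc, one_mul, inner_sum, diffQuot]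
  refine Finset.sum_congr rfl fun p _ => ?_
  split_ifs
  · rw [inner_smul_right, mul_comm]; rfl
  · exact inner_zero_right _

theorem fisher_pert (σ : Fin n → L) (hσ : Function.Injective σ) (hn : ∀ i, F.IsNoise (σ i))
    (x : Fin n → H →L[ℂ] H) (hx : ∀ i, x i ∈ F.NL (Set.range σ)) (hxs : ∀ i, IsSelfAdjoint (x i))
    {t : ℝ} (ht : 0 < t) :
    fisher F.Ω (pert x (fun i => F.S (σ i, 0)) t) =
      ENNReal.ofReal (fval F.Ω x (fun i => F.S (σ i, 0)) t / t) := by
  rw [fisher_of_isConj (isSelfAdjoint_pert hxs (fun i => F.star_S _) t)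
    (isConj_pert F σ hσ hn x hx hxs ht), fval, Finset.sum_div]
  congr 1
  refine Finset.sum_congr rfl fun j _ => ?_
  rw [map_smul, norm_smul, mul_pow, norm_inv, Complex.norm_real,
    Real.norm_of_nonneg (Real.sqrt_nonneg t), inv_pow, Real.sq_sqrt ht.le, inv_mul_eq_div]

/-- A rotated creation operator. -/
def lO (π : L → L) (c d : L → ℝ) (a : L × Γ) : H →L[ℂ] H :=
  (c a.1 : ℂ) • F.l a + (d a.1 : ℂ) • F.l (π a.1, a.2)

/-- The rotated basis vectors. -/
def eO (π : L → L) (c d : L → ℝ) : List (L × Γ) → Γ → H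
  | [], h => F.e [] h
  | a :: w, h => lO F π c d a (eO π c d w h)

theorem exists_rot (π : L → L) (c d : L → ℝ) (h1 : ∀ a, π (π a) = a)
    (h2 : ∀ a, F.φ (π a) = F.φ a) (h3 : ∀ a, c (π a) = c a) (h4 : ∀ a, d (π a) = -d a)
    (h5 : ∀ a, c a ^ 2 + d a ^ 2 = 1) :
    ∃ V : H →L[ℂ] H, (∀ a b, ⟪V a, V b⟫_ℂ = ⟪a, b⟫_ℂ) ∧ V F.Ω = F.Ω ∧
      (∀ g, Commute (F.lam g) V) ∧
      ∀ a : L × Γ, V * F.S a = ((c a.1 : ℂ) • F.S a + (d a.1 : ℂ) • F.S (π a.1, a.2)) * V := by
  have hinj : ∀ a b, π a = π b ↔ a = b := fun a b =>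
    ⟨fun e => by rw [← h1 a, e, h1], fun e => by rw [e]⟩
  have hstar : ∀ a, star (lO F π c d a) =
      (c a.1 : ℂ) • star (F.l a) + (d a.1 : ℂ) • star (F.l (π a.1, a.2)) := fun a => by
    simp [lO, star_smul]
  have hk : ∀ a b : L × Γ, c a.1 * c b.1 * k1 F.φ a b + c a.1 * d b.1 * k1 F.φ a (π b.1, b.2) +
      d a.1 * c b.1 * k1 F.φ (π a.1, a.2) b +
      d a.1 * d b.1 * k1 F.φ (π a.1, a.2) (π b.1, b.2) = k1 F.φ a b := by
    rintro ⟨a, β⟩ ⟨b, β'⟩
    have e1 : c a * c b * k1 F.φ (a, β) (b, β') + d a * d b * k1 F.φ (π a, β) (π b, β') =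
        k1 F.φ (a, β) (b, β') := by
      simp only [k1, hinj, h2]
      split_ifs with hab
      · subst hab; linear_combination F.φ a (β + β') * h5 a
      · simp
    have e2 : c a * d b * k1 F.φ (a, β) (π b, β') + d a * c b * k1 F.φ (π a, β) (b, β') = 0 := by
      have : π a = b ↔ a = π b := ⟨fun e => by rw [← e, h1], fun e => by rw [e, h1]⟩
      simp only [k1, this, h2]
      split_ifs with hab
      · subst hab; rw [h3, h4]; ring
      · simp
    simp only
    linarith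
  have hmul : ∀ a b, star (lO F π c d a) * lO F π c d b = (k1 F.φ a b : ℂ) • 1 := fun a b => by
    rw [hstar, lO, ← hk a b]
    simp only [add_mul, mul_add, smul_mul_assoc, mul_smul_comm, F.star_l_mul_l, smul_smul,
      ← add_smul]
    congr 1
    push_cast
    ring
  have hnil : ∀ a h, star (lO F π c d a) (F.e [] h) = 0 := fun a h => by
    simp [hstar, F.star_l_nil]
  have hcons : ∀ a b v, star (lO F π c d a) (lO F π c d b v) = (k1 F.φ a b : ℂ) • v :=
    fun a b v => congrArg (fun A : H →L[ℂ] H => A v) (hmul a b)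
  have hgram : ∀ (w v : List (L × Γ)) (g h : Γ),
      ⟪eO F π c d w g, eO F π c d v h⟫_ℂ = ⟪F.e w g, F.e v h⟫_ℂ := by
    intro w
    induction w with
    | nil =>
      intro v g h
      cases v with
      | nil => rfl
      | cons b v =>
        rw [eO, eO, ← Fock.inner_star_left, hnil, F.inner_e]; simp [kw]
    | cons a w ih =>
      intro v g h
      cases v with
      | nil => rw [eO, eO, ← Fock.inner_star_right, hnil, F.inner_e]; simp [kw]
      | cons b v =>
        rw [eO, eO, ← Fock.inner_star_right, hcons, inner_smul_right, ih, F.inner_e, F.inner_e]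
        simp [kw]
  obtain ⟨V, hV⟩ := exists_ext F.dense (fun p : List (L × Γ) × Γ => eO F π c d p.1 p.2)
    fun p q => hgram _ _ _ _
  have hV' : ∀ w g, V (F.e w g) = eO F π c d w g := fun w g => hV (w, g)
  have hiso : star V * V = 1 := F.ext_op fun w g => F.ext_vec fun v h => by
    rw [mul_apply_eq_comp, Fock.inner_star_right, hV', hV', hgram]; rfl
  have hlam : ∀ g (w : List (L × Γ)) h,
      F.lam g (eO F π c d w h) = eO F π c d (shift g w) (g + h) := by
    intro g w h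
    induction w with
    | nil => simp [eO, F.lam_e, shift]
    | cons a w ih =>
      have e1 : F.lam g * lO F π c d a = lO F π c d (a.1, g + a.2) * F.lam g := by
        simp only [lO, mul_add, add_mul, smul_mul_assoc, mul_smul_comm, F.lam_mul_l]
      have e2 := congrArg (fun A : H →L[ℂ] H => A (eO F π c d w h)) e1
      simp only [mul_apply_eq_comp, ih] at e2
      exact e2
  refine ⟨V, fun a b => ?_, hV' [] 0, fun g => F.ext_op fun w h => ?_, fun a => ?_⟩
  · rw [← Fock.inner_star_right, ← mul_apply_eq_comp, hiso]; rfl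
  · simp only [mul_apply_eq_comp, F.lam_e, hV', hlam]
  · have e1 : V * F.l a = lO F π c d a * V := F.ext_op fun w h => by
      simp only [mul_apply_eq_comp, F.l_e, hV', eO]
    have e2 : V * star (F.l a) = star (lO F π c d a) * V := F.ext_op fun w h => by
      cases w with
      | nil => simp only [mul_apply_eq_comp, F.star_l_nil, hV', eO, hnil, map_zero]
      | cons b w => simp only [mul_apply_eq_comp, F.star_l_cons, hV', eO, hcons, map_smul]
    rw [Fock.S, mul_add, e1, e2, ← add_mul, hstar, lO, Fock.S, smul_add, smul_add]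
    congr 1
    abel

theorem fisher_pert_pert (σ σ' : Fin n → L) (hσ : Function.Injective (Sum.elim σ σ'))
    (hn : ∀ i, F.IsNoise (σ i)) (hn' : ∀ i, F.IsNoise (σ' i))
    (x : Fin n → H →L[ℂ] H) (hx : ∀ i, x i ∈ F.NL (Set.range σ ∪ Set.range σ'))
    (hxs : ∀ i, IsSelfAdjoint (x i)) {t r : ℝ} (ht : 0 < t) (hr : 0 ≤ r) :
    fisher F.Ω (pert (pert x (fun i => F.S (σ i, 0)) t) (fun i => F.S (σ' i, 0)) r) =
      fisher F.Ω (pert x (fun i => F.S (σ i, 0)) (t + r)) := by
  have htr : 0 < t + r := by linarith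
  have hq : 0 < Real.sqrt (t + r) := Real.sqrt_pos.mpr htr
  set cc : ℝ := Real.sqrt t / Real.sqrt (t + r) with hcc
  set ss : ℝ := Real.sqrt r / Real.sqrt (t + r) with hss
  have hcs : cc ^ 2 + ss ^ 2 = 1 := by
    rw [hcc, hss, div_pow, div_pow, Real.sq_sqrt ht.le, Real.sq_sqrt hr, Real.sq_sqrt htr.le]
    field_simp
  let π : L → L := Function.extend (Sum.elim σ σ') (Sum.elim σ' σ) id
  let c : L → ℝ := Function.extend (Sum.elim σ σ') (fun _ => cc) fun _ => 1
  let d : L → ℝ := Function.extend (Sum.elim σ σ') (Sum.elim (fun _ => ss) fun _ => -ss) fun _ => 0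
  have hA : ∀ i, π (σ i) = σ' i ∧ c (σ i) = cc ∧ d (σ i) = ss := fun i =>
    ⟨hσ.extend_apply _ _ (Sum.inl i), hσ.extend_apply _ _ (Sum.inl i),
      hσ.extend_apply _ _ (Sum.inl i)⟩
  have hB : ∀ i, π (σ' i) = σ i ∧ c (σ' i) = cc ∧ d (σ' i) = -ss := fun i =>
    ⟨hσ.extend_apply _ _ (Sum.inr i), hσ.extend_apply _ _ (Sum.inr i),
      hσ.extend_apply _ _ (Sum.inr i)⟩
  have hC : ∀ a, a ∉ Set.range σ ∪ Set.range σ' → π a = a ∧ c a = 1 ∧ d a = 0 := fun a ha => by
    have : ¬∃ k, Sum.elim σ σ' k = a := by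
      rintro ⟨i | i, e⟩
      · exact ha (Or.inl ⟨i, e⟩)
      · exact ha (Or.inr ⟨i, e⟩)
    exact ⟨Function.extend_apply' _ _ _ this, Function.extend_apply' _ _ _ this,
      Function.extend_apply' _ _ _ this⟩
  have hφ : ∀ i, F.φ (σ i) = F.φ (σ' i) := fun i => funext fun g => by rw [hn i g, hn' i g]
  have hall : ∀ a, π (π a) = a ∧ F.φ (π a) = F.φ a ∧ c (π a) = c a ∧ d (π a) = -d a ∧
      c a ^ 2 + d a ^ 2 = 1 := by
    intro a
    by_cases ha : a ∈ Set.range σ ∪ Set.range σ'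
    · rcases ha with ⟨i, rfl⟩ | ⟨i, rfl⟩
      · simp [hA i, hB i, hφ i, hcs]
      · simp [hA i, hB i, hφ i, hcs]
    · simp [hC a ha]
  obtain ⟨V, hV, hΩ, hlam, hS⟩ := exists_rot F π c d (fun a => (hall a).1)
    (fun a => (hall a).2.1) (fun a => (hall a).2.2.1) (fun a => (hall a).2.2.2.1)
    fun a => (hall a).2.2.2.2
  have hxV : ∀ i, Commute (x i) V := fun i =>
    F.commute_of_mem_NL hlam (fun b hb => by
      have := hS b
      rw [(hC _ hb).2.1, (hC _ hb).2.2] at this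
      simpa [Commute, SemiconjBy] using this.symm) (hx i)
  have hinj : Function.Injective σ := fun i j e =>
    Sum.inl_injective (hσ (a₁ := Sum.inl i) (a₂ := Sum.inl j) e)
  have hconj := isConj_pert F σ hinj hn x (fun i => F.NL_mono Set.subset_union_left (hx i)) hxs htr
  have hsa := isSelfAdjoint_pert hxs (fun i => F.star_S (σ i, 0)) t
  have hmap : ∀ i, V * pert x (fun i => F.S (σ i, 0)) (t + r) i =
      pert (pert x (fun i => F.S (σ i, 0)) t) (fun i => F.S (σ' i, 0)) r i * V := by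
    intro i
    have e1 : (Real.sqrt (t + r) : ℂ) * cc = Real.sqrt t := by
      rw [← Complex.ofReal_mul, hcc, mul_div_cancel₀ _ hq.ne']
    have e2 : (Real.sqrt (t + r) : ℂ) * ss = Real.sqrt r := by
      rw [← Complex.ofReal_mul, hss, mul_div_cancel₀ _ hq.ne']
    simp only [pert, mul_add, add_mul, mul_smul_comm, smul_mul_assoc, hS, (hA i).1, (hA i).2.1,
      (hA i).2.2, (hxV i).eq, smul_add, smul_smul, e1, e2, add_assoc]
  rw [fisher_of_isConj (isSelfAdjoint_pert hsa (fun i => F.star_S _) r)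
      (isConj_map hV hΩ hmap hconj),
    fisher_of_isConj (isSelfAdjoint_pert hxs (fun i => F.star_S _) _) hconj]
  congr 1
  refine Finset.sum_congr rfl fun j _ => ?_
  rw [← inner_self_eq_norm_sq (𝕜 := ℂ), ← inner_self_eq_norm_sq (𝕜 := ℂ), hV]

end Pool.Agent.MP_ce43bb_an.H42
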