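import Pool.Agent.MP_ce43bb_an.H78.Base

/-! The projection onto the closed span of the monomial vectors; conjugate variables are unique. -/

set_option linter.unusedSectionVars false

open scoped InnerProductSpace ENNReal Topology
open Filter

noncomputable section

namespace Pool.Agent.MP_ce43bb_an.H42
open Pool.Agent.MP_ce43bb_an.H78

variable {H : Type} [NormedAddCommGroup H] [InnerProductSpace ℂ H] [CompleteSpace H] {n : ℕ}

theorem word_nil (y : Fin n → H →L[ℂ] H) : word y [] = 1 := rfl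

theorem word_cons (y : Fin n → H →L[ℂ] H) (j : Fin n) (w : List (Fin n)) :
    word y (j :: w) = y j * word y w := by simp [word]

theorem word_append (y : Fin n → H →L[ℂ] H) (w v : List (Fin n)) :
    word y (w ++ v) = word y w * word y v := by simp [word]

theorem word_mem (Ω : H) (y : Fin n → H →L[ℂ] H) (w : List (Fin n)) : word y w Ω ∈ L2 Ω y :=
  Submodule.le_topologicalClosure _ (Submodule.subset_span ⟨w, rfl⟩)

theorem isClosed_L2 (Ω : H) (y : Fin n → H →L[ℂ] H) : IsClosed (L2 Ω y : Set H) :=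
  Submodule.isClosed_topologicalClosure _

theorem maps_L2 {Ω Ω' : H} {y y' : Fin n → H →L[ℂ] H} {T : H →L[ℂ] H}
    (h : ∀ w, T (word y w Ω) ∈ L2 Ω' y') {x : H} (hx : x ∈ L2 Ω y) : T x ∈ L2 Ω' y' := by
  have hcl : IsClosed ((L2 Ω' y').comap (T : H →ₗ[ℂ] H) : Set H) :=
    (isClosed_L2 Ω' y').preimage T.continuous
  have hle : L2 Ω y ≤ (L2 Ω' y').comap (T : H →ₗ[ℂ] H) :=
    Submodule.topologicalClosure_minimal _
      (Submodule.span_le.mpr (by rintro _ ⟨w, rfl⟩; exact h w)) hcl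
  exact hle hx

theorem isStarProjection_proj (Ω : H) (y : Fin n → H →L[ℂ] H) :
    IsStarProjection (proj Ω y) := isStarProjection_starProjection

theorem proj_mem (Ω : H) (y : Fin n → H →L[ℂ] H) (v : H) : proj Ω y v ∈ L2 Ω y :=
  Submodule.starProjection_apply_mem _ _

theorem proj_of_mem {Ω : H} {y : Fin n → H →L[ℂ] H} {v : H} (hv : v ∈ L2 Ω y) :
    proj Ω y v = v := Submodule.starProjection_eq_self_iff.mpr hv

theorem proj_apply_self (Ω : H) (y : Fin n → H →L[ℂ] H) : proj Ω y Ω = Ω :=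
  proj_of_mem (word_mem Ω y [])

theorem inner_proj (Ω : H) (y : Fin n → H →L[ℂ] H) (u v : H) :
    ⟪proj Ω y u, v⟫_ℂ = ⟪u, proj Ω y v⟫_ℂ :=
  Submodule.inner_starProjection_left_eq_right _ u v

theorem norm_proj_apply_le (Ω : H) (y : Fin n → H →L[ℂ] H) (v : H) : ‖proj Ω y v‖ ≤ ‖v‖ :=
  Submodule.norm_starProjection_apply_le _ v

theorem commute_of_invariant {Ω : H} {y : Fin n → H →L[ℂ] H} {T : H →L[ℂ] H}
    (hT : IsSelfAdjoint T) (h : ∀ w, T (word y w Ω) ∈ L2 Ω y) : Commute (proj Ω y) T := by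
  have h1 : proj Ω y * T * proj Ω y = T * proj Ω y := by
    ext x
    exact proj_of_mem (maps_L2 h (proj_mem Ω y x))
  have h2 := congrArg star h1
  have hs := (isStarProjection_proj Ω y).isSelfAdjoint.star_eq
  simp only [star_mul, hs, hT.star_eq, ← mul_assoc] at h2
  exact h2.symm.trans h1

theorem commute_proj_left (Ω : H) (y : Fin n → H →L[ℂ] H) (j : Fin n)
    (hy : IsSelfAdjoint (y j)) : Commute (proj Ω y) (y j) :=
  commute_of_invariant hy fun w => by
    have := word_mem Ω y (j :: w)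
    rwa [word_cons] at this

theorem commute_word {y : Fin n → H →L[ℂ] H} {T : H →L[ℂ] H} (hc : ∀ i, Commute (y i) T)
    (w : List (Fin n)) : Commute (word y w) T := by
  induction w with
  | nil => exact Commute.one_left _
  | cons j w ih => rw [word_cons]; exact (hc j).mul_left ih

theorem commute_proj_right (Ω : H) (y : Fin n → H →L[ℂ] H) (j : Fin n) {T : H →L[ℂ] H}
    (hT : IsSelfAdjoint T) (hc : ∀ i, Commute (y i) T) (hΩ : T Ω = y j Ω) :
    Commute (proj Ω y) T :=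
  commute_of_invariant hT fun w => by
    have h1 := word_mem Ω y (w ++ [j])
    have h2 : T (word y w Ω) = word y w (T Ω) :=
      congrArg (fun A : H →L[ℂ] H => A Ω) (commute_word hc w).eq.symm
    rw [word_append, word_cons, word_nil, mul_one] at h1
    rw [h2, hΩ]
    exact h1

theorem exists_finsupp {Ω : H} {y : Fin n → H →L[ℂ] H} {k : H}
    (hk : k ∈ Submodule.span ℂ (Set.range fun w => word y w Ω)) :
    ∃ c : List (Fin n) →₀ ℂ, (c.sum fun w a => a • word y w Ω) = k :=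
  Finsupp.mem_span_range_iff_exists_finsupp.mp hk

theorem finsupp_mem (Ω : H) (y : Fin n → H →L[ℂ] H) (c : List (Fin n) →₀ ℂ) :
    (c.sum fun w a => a • word y w Ω) ∈ L2 Ω y :=
  Submodule.sum_mem _ fun w _ => Submodule.smul_mem _ _ (word_mem Ω y w)

theorem inner_proj_self (Ω : H) (y : Fin n → H →L[ℂ] H) (v : H) :
    ⟪v, proj Ω y v⟫_ℂ = ((‖proj Ω y v‖ ^ 2 : ℝ) : ℂ) := by
  rw [← proj_of_mem (proj_mem Ω y v), ← inner_proj, proj_of_mem (proj_mem Ω y v),
    inner_self_eq_norm_sq_to_K]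
  simp

theorem norm_proj_le (Ω : H) (y : Fin n → H →L[ℂ] H) (v : H) {κ : ℝ} (hκ : 0 ≤ κ)
    (h : ∀ c : List (Fin n) →₀ ℂ,
      ‖⟪v, c.sum fun w a => a • word y w Ω⟫_ℂ‖ ≤ κ * ‖c.sum fun w a => a • word y w Ω‖) :
    ‖proj Ω y v‖ ≤ κ := by
  have hcl : IsClosed {k : H | ‖⟪v, k⟫_ℂ‖ ≤ κ * ‖k‖} := isClosed_le (by fun_prop) (by fun_prop)
  have hsub : (Submodule.span ℂ (Set.range fun w => word y w Ω) : Set H) ⊆
      {k : H | ‖⟪v, k⟫_ℂ‖ ≤ κ * ‖k‖} := by
    intro k hk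
    obtain ⟨c, rfl⟩ := exists_finsupp hk
    exact h c
  have h1 : ‖⟪v, proj Ω y v⟫_ℂ‖ ≤ κ * ‖proj Ω y v‖ := closure_minimal hsub hcl (proj_mem Ω y v)
  rw [inner_proj_self, Complex.norm_real, Real.norm_of_nonneg (sq_nonneg _)] at h1
  rcases (norm_nonneg (proj Ω y v)).eq_or_lt with h0 | h0
  · rw [← h0]; exact hκ
  · nlinarith

theorem quad_le (Ω : H) (y : Fin n → H →L[ℂ] H) (v : H) {k : H} (hk : k ∈ L2 Ω y) :
    2 * (⟪v, k⟫_ℂ).re - ‖k‖ ^ 2 ≤ ‖proj Ω y v‖ ^ 2 := by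
  have h1 : ⟪v, k⟫_ℂ = ⟪proj Ω y v, k⟫_ℂ := by rw [inner_proj, proj_of_mem hk]
  have h2 : (⟪proj Ω y v, k⟫_ℂ).re ≤ ‖proj Ω y v‖ * ‖k‖ :=
    (Complex.re_le_norm _).trans (norm_inner_le_norm _ _)
  rw [h1]
  nlinarith [sq_nonneg (‖proj Ω y v‖ - ‖k‖)]

theorem exists_quad (Ω : H) (y : Fin n → H →L[ℂ] H) (v : H) {a : ℝ} (ha : a < ‖proj Ω y v‖ ^ 2) :
    ∃ c : List (Fin n) →₀ ℂ, a < 2 * (⟪v, c.sum fun w b => b • word y w Ω⟫_ℂ).re -
      ‖c.sum fun w b => b • word y w Ω‖ ^ 2 := by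
  have hop : IsOpen {k : H | a < 2 * (⟪v, k⟫_ℂ).re - ‖k‖ ^ 2} :=
    isOpen_lt continuous_const (by fun_prop)
  have hmem : proj Ω y v ∈ {k : H | a < 2 * (⟪v, k⟫_ℂ).re - ‖k‖ ^ 2} := by
    simp only [Set.mem_ofPred_eq, inner_proj_self, Complex.ofReal_re]
    linarith
  obtain ⟨k, hk1, hk2⟩ := mem_closure_iff.mp (proj_mem Ω y v) _ hop hmem
  obtain ⟨c, rfl⟩ := exists_finsupp hk2
  exact ⟨c, hk1⟩

theorem continuous_word (x s : Fin n → H →L[ℂ] H) (w : List (Fin n)) :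
    Continuous fun t : ℝ => word (pert x s t) w := by
  induction w with
  | nil => exact continuous_const
  | cons j w ih =>
    simp only [word_cons]
    refine Continuous.mul ?_ ih
    simp only [pert]
    fun_prop

theorem measurable_fval (Ω : H) (x s : Fin n → H →L[ℂ] H) : Measurable (fval Ω x s) := by
  refine Finset.measurable_fun_sum _ fun j _ => LowerSemicontinuous.measurable ?_
  intro t a ha
  obtain ⟨c, hc⟩ := exists_quad Ω (pert x s t) (s j Ω) ha
  have hk : Continuous fun u : ℝ => c.sum fun w b => b • word (pert x s u) w Ω := by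
    refine continuous_finsetSum _ fun w _ => Continuous.const_smul ?_ _
    exact (continuous_word x s w).clm_apply continuous_const
  have hcont : Continuous fun u : ℝ =>
      2 * (⟪s j Ω, c.sum fun w b => b • word (pert x s u) w Ω⟫_ℂ).re -
        ‖c.sum fun w b => b • word (pert x s u) w Ω‖ ^ 2 := by fun_prop
  filter_upwards [(isOpen_lt continuous_const hcont).mem_nhds hc] with u hu
  exact lt_of_lt_of_le hu (quad_le Ω _ _ (finsupp_mem Ω _ c))

theorem star_word {y : Fin n → H →L[ℂ] H} (hy : ∀ i, IsSelfAdjoint (y i)) (w : List (Fin n)) :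
    star (word y w) = word y w.reverse := by
  induction w with
  | nil => simp [word_nil]
  | cons j w ih =>
    rw [word_cons, star_mul, ih, (hy j).star_eq, List.reverse_cons, word_append, word_cons,
      word_nil, mul_one]

theorem eq_zero_of_words {Ω : H} {y : Fin n → H →L[ℂ] H} (hy : ∀ i, IsSelfAdjoint (y i)) {ζ : H}
    (hζ : ζ ∈ L2 Ω y) (h : ∀ w, ⟪Ω, word y w ζ⟫_ℂ = 0) : ζ = 0 := by
  have h1 : ‖proj Ω y ζ‖ ≤ 0 := by
    refine norm_proj_le Ω y ζ le_rfl fun c => ?_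
    have : ⟪ζ, c.sum fun w a => a • word y w Ω⟫_ℂ = 0 := by
      simp only [Finsupp.sum, inner_sum, inner_smul_right]
      refine Finset.sum_eq_zero fun w _ => ?_
      have h2 := h w.reverse
      rw [← star_word hy, Fock.inner_star_right] at h2
      rw [← inner_conj_symm, h2]
      simp
    rw [this]; simp
  rw [proj_of_mem hζ] at h1
  exact norm_le_zero_iff.mp h1

theorem fisher_of_isConj {Ω : H} {y : Fin n → H →L[ℂ] H} (hy : ∀ i, IsSelfAdjoint (y i))
    {ξ : Fin n → H} (hξ : IsConj Ω y ξ) : fisher Ω y = ENNReal.ofReal (∑ j, ‖ξ j‖ ^ 2) := by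
  have hval : ∑ j, ‖ξ j‖ₑ ^ 2 = ENNReal.ofReal (∑ j, ‖ξ j‖ ^ 2) := by
    rw [ENNReal.ofReal_sum_of_nonneg fun j _ => sq_nonneg _]
    refine Finset.sum_congr rfl fun j _ => ?_
    rw [ENNReal.ofReal_pow (norm_nonneg _), ofReal_norm]
  rw [← hval]
  refine le_antisymm (iInf₂_le ξ hξ) (le_iInf₂ fun ξ' hξ' => le_of_eq ?_)
  refine Finset.sum_congr rfl fun j _ => ?_
  have : ξ j - ξ' j = 0 := eq_zero_of_words hy (Submodule.sub_mem _ (hξ j).1 (hξ' j).1) fun w => by
    rw [map_sub, inner_sub_right, (hξ j).2, (hξ' j).2, sub_self]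
  rw [sub_eq_zero.mp this]

theorem isConj_proj {Ω : H} {y : Fin n → H →L[ℂ] H} (hy : ∀ i, IsSelfAdjoint (y i))
    {v : Fin n → H} (hv : ∀ j w, ⟪Ω, word y w (v j)⟫_ℂ = diffQuot Ω y j w) :
    IsConj Ω y fun j => proj Ω y (v j) := fun j => by
  refine ⟨proj_mem _ _ _, fun w => ?_⟩
  have h1 : word y w (proj Ω y (v j)) = proj Ω y (word y w (v j)) :=
    congrArg (fun A : H →L[ℂ] H => A (v j))
      (commute_word (fun i => (commute_proj_left Ω y i (hy i)).symm) w).eq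
  rw [h1, ← inner_proj, proj_apply_self, hv]

theorem isConj_map {Ω : H} {y y' : Fin n → H →L[ℂ] H} {V : H →L[ℂ] H}
    (hV : ∀ a b, ⟪V a, V b⟫_ℂ = ⟪a, b⟫_ℂ) (hΩ : V Ω = Ω) (hc : ∀ i, V * y' i = y i * V)
    {ξ : Fin n → H} (hξ : IsConj Ω y' ξ) : IsConj Ω y fun j => V (ξ j) := by
  have hw : ∀ w a, V (word y' w a) = word y w (V a) := by
    intro w
    induction w with
    | nil => intro a; rfl
    | cons i w ih =>
      intro a
      have := congrArg (fun A : H →L[ℂ] H => A (word y' w a)) (hc i)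
      simp only [mul_apply_eq_comp] at this
      simp only [word_cons, mul_apply_eq_comp, this, ih]
  have hi : ∀ w a, ⟪Ω, word y w (V a)⟫_ℂ = ⟪Ω, word y' w a⟫_ℂ := fun w a => by
    rw [← hw, ← hV Ω (word y' w a), hΩ]
  have ht : ∀ w, tau Ω (word y w) = tau Ω (word y' w) := fun w => by
    have := hi w Ω
    rwa [hΩ] at this
  intro j
  refine ⟨maps_L2 (fun w => ?_) (hξ j).1, fun w => ?_⟩
  · rw [hw, hΩ]; exact word_mem Ω y w
  · rw [hi, (hξ j).2]
    simp only [diffQuot, ht]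

end Pool.Agent.MP_ce43bb_an.H42
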